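import Pool.Agent.Lead.Tun

namespace Pool.Agent.Results.MP_d97c10_lc.Q12

open Pool.Agent.Lead.Mod Pool.Agent.Lead.Mod.Fm

/-- The subalgebra of `Alg(W, R)` generated by `G`. -/
inductive Gen {W : Type} (R : W → W → Prop) (G : Set (Set W)) : Set W → Prop
  | base (X) : X ∈ G → Gen R G X
  | empty : Gen R G ∅
  | compl (X) : Gen R G X → Gen R G Xᶜ
  | union (X Y) : Gen R G X → Gen R G Y → Gen R G (X ∪ Y)
  | dia (X) : Gen R G X → Gen R G {w | ∃ v ∈ X, R w v}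

/-- `Alg(W, R)` is locally finite. -/
def LocFin {W : Type} (R : W → W → Prop) : Prop :=
  ∀ G : Set (Set W), G.Finite → {X | Gen R G X}.Finite

/-- The logic of a frame. -/
def Log {W : Type} (R : W → W → Prop) : Set Fm := {a | ∀ V w, Sat R V a w}

/-- The finite model property. -/
def FMP (L : Set Fm) : Prop :=
  ∀ a, a ∉ L → ∃ (W : Type) (_ : Finite W) (R : W → W → Prop),
    FrameFor L R ∧ ∃ V w, ¬ Sat R V a w

section
variable {W : Type} [Preorder W] [WellQuasiOrderedLE W] {R : W → W → Prop}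

lemma locFin (h1 : ∀ x y, R x y → x ≤ y) (h2 : ∀ x x' y, x ≤ x' → R x' y → R x y) :
    LocFin R := by
  intro G hG
  have := hG.to_subtype
  obtain ⟨κ, _, d, hd1, hd2⟩ := tunable h1 h2 (G → Prop) (fun x X => x ∈ X.1)
  refine (Set.finite_range (fun K : Set κ => d ⁻¹' K)).subset fun X hX => ?_
  have : ∀ x y, d x = d y → x ∈ X → y ∈ X := by
    induction hX with
    | base X hX => exact fun x y h hx => (iff_of_eq (congrFun (hd1 x y h) ⟨X, hX⟩)).1 hx
    | empty => simp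
    | compl X _ ih => exact fun x y h hx hy => hx (ih y x h.symm hy)
    | union X Y _ _ ih1 ih2 => exact fun x y h hx => hx.imp (ih1 x y h) (ih2 x y h)
    | dia X _ ih =>
      rintro x y h ⟨v, hv, hxv⟩
      obtain ⟨v', h3, h4⟩ := hd2 x y v h hxv
      exact ⟨v', ih v v' h4.symm hv, h3⟩
  refine ⟨d '' X, Set.ext fun x => ⟨?_, fun hx => ⟨x, hx, rfl⟩⟩⟩
  rintro ⟨y, hy, h⟩
  exact this y x h hy

lemma fmp (h1 : ∀ x y, R x y → x ≤ y) (h2 : ∀ x x' y, x ≤ x' → R x' y → R x y) :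
    FMP (Log R) := by
  intro a ha
  simp only [Log, Set.mem_ofPred_eq, not_forall] at ha
  obtain ⟨V, w, hw⟩ := ha
  obtain ⟨κ, _, d, hd1, hd2⟩ := tunable h1 h2 (sig a → Prop) (fun x n => V n.1 x)
  let f : W → Set.range d := fun x => ⟨d x, x, rfl⟩
  let R' : Set.range d → Set.range d → Prop := fun p q => ∃ x y, R x y ∧ f x = p ∧ f y = q
  have hb : ∀ (σ : Finset ℕ) (V₁ : ℕ → W → Prop) (V₂ : ℕ → Set.range d → Prop),
      (∀ n ∈ σ, ∀ x, V₁ n x ↔ V₂ n (f x)) → IsBisim σ R V₁ R' V₂ (fun x p => f x = p) := by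
    rintro σ V₁ V₂ h x _ rfl
    refine ⟨fun n hn => h n hn x, fun x' hx' => ⟨f x', ⟨x, x', hx', rfl, rfl⟩, rfl⟩, ?_⟩
    rintro _ ⟨u, v, huv, hu, rfl⟩
    obtain ⟨y, h3, h4⟩ := hd2 u x v (congrArg Subtype.val hu) huv
    exact ⟨y, h3, Subtype.ext h4⟩
  refine ⟨Set.range d, inferInstance, R', ?_, fun n p => ∃ x, f x = p ∧ V n x, f w, fun h => hw ?_⟩
  · rintro b hb' V₂ ⟨_, x, rfl⟩
    exact (bisim_inv (hb (sig b) (fun n x => V₂ n (f x)) V₂ (fun _ _ _ => Iff.rfl)) b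
      subset_rfl x _ rfl).1 (hb' _ x)
  · refine (bisim_inv (hb (sig a) V _ (fun n hn x => ⟨fun h => ⟨x, rfl, h⟩, ?_⟩)) a
      subset_rfl w _ rfl).2 h
    rintro ⟨y, hy, h⟩
    exact (iff_of_eq (congrFun (hd1 y x (congrArg Subtype.val hy)) ⟨n, hn⟩)).1 h

end

theorem result (k : ℕ) (α : Fin k → Ordinal.{0}) :
    (LocFin (fun x y : (i : Fin k) → (α i).ToType => ∀ i, x i ≤ y i) ∧
      LocFin (fun x y : (i : Fin k) → (α i).ToType => ∀ i, x i < y i)) ∧
    (FMP (Log (fun x y : (i : Fin k) → (α i).ToType => ∀ i, x i ≤ y i)) ∧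
      FMP (Log (fun x y : (i : Fin k) → (α i).ToType => ∀ i, x i < y i))) := by
  have : WellQuasiOrderedLE ((i : Fin k) → (α i).ToType) :=
    ⟨WellQuasiOrdered.pi (r := fun i => ((· ≤ ·) : (α i).ToType → _ → Prop))
      fun _ => wellQuasiOrdered_le⟩
  exact ⟨⟨locFin (fun _ _ h => h) (fun _ _ _ h h' i => (h i).trans (h' i)),
    locFin (fun _ _ h i => (h i).le) (fun _ _ _ h h' i => (h i).trans_lt (h' i))⟩,
    ⟨fmp (fun _ _ h => h) (fun _ _ _ h h' i => (h i).trans (h' i)),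
    fmp (fun _ _ h i => (h i).le) (fun _ _ _ h h' i => (h i).trans_lt (h' i))⟩⟩

end Pool.Agent.Results.MP_d97c10_lc.Q12
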